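import Pool.Agent.Helper14.PG.ManySum
import Pool.Agent.Helper48.PS.ManyEnd

/-!
# PG-ManyEnd: many primes in a residue class modulo `D` with `q ∣ r + 1`

`many_primes` of Helper14/PS/Many.lean (Helper48/PS/ManyEnd.lean, ManySum.lean) for the primes `r ≡ c₀ [MOD D]`, `c₀` prime to `D`.
PROOF.  Copy those; only the condition `D ∣ r + 1` is replaced by `r ≡ c₀ [MOD D]`, and `many_sum2` is the input.
-/

set_option autoImplicit false

namespace Pool.Agent.Helper14.PG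

open Finset
open scoped ArithmeticFunction.vonMangoldt

open Classical in
/-- The primes `r ≤ x`, `r > B`, `r ≡ c₀ [MOD D]`, for which `r + 1` has a prime factor in
`(x ^ (1/81), x ^ (1/80)]`. -/
noncomputable def Rset2 (D c₀ B x : ℕ) : Finset ℕ :=
  (Icc 1 x).filter (fun r => r.Prime ∧ r ≡ c₀ [MOD D] ∧ B < r ∧ ∃ q : ℕ, q.Prime ∧
    (x : ℝ) ^ (1 / 81 : ℝ) < q ∧ (q : ℝ) ≤ (x : ℝ) ^ (1 / 80 : ℝ) ∧ q ∣ r + 1)

open Pool.Agent.Helper18.BV
open Pool.Agent.Helper48.PS (Qs exists_wt' card_count wt_le nonprime_le)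

/-- `many_sum2` over the natural numbers -/
theorem manySum2 {D c₀ : ℕ} (hD : 0 < D) (hc₀ : Nat.Coprime c₀ D) (g : ℝ → ℝ) (hg : IsWt g)
    (hne : ∃ v, g v ≠ 0) : ∃ c : ℝ, 0 < c ∧ ∃ x₀ : ℕ, ∀ x : ℕ, x₀ ≤ x →
    c * Real.log x ≤ ∑ q ∈ Qs x, ∑ n ∈ (Icc 1 x).filter (fun n => n ≡ c₀ [MOD D] ∧ q ∣ n + 1),
      Λ n * wt g x n := by
  obtain ⟨c, X0, hc, hX0, h⟩ := many_sum2 hD hc₀ hg hne
  refine ⟨c, hc, ⌈X0⌉₊, fun x hx => ?_⟩
  have hx' : X0 ≤ (x : ℝ) := (Nat.le_ceil X0).trans (by exact_mod_cast hx)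
  have hx3 : (3 : ℝ) ≤ x := hX0.trans hx'
  have h1 := h x hx'
  rw [Nat.floor_natCast] at h1
  have hQ : (Ioc ⌊(x : ℝ) ^ (1 / 81 : ℝ)⌋₊ ⌊(x : ℝ) ^ (1 / 80 : ℝ)⌋₊).filter Nat.Prime = Qs x := by
    ext q
    unfold Pool.Agent.Helper48.PS.Qs
    rw [Finset.mem_filter, Finset.mem_filter, Finset.mem_Ioc, Finset.mem_Icc,
      Nat.floor_lt (by positivity), Nat.le_floor_iff (by positivity)]
    constructor
    · rintro ⟨⟨a, b⟩, hp⟩
      refine ⟨⟨hp.one_lt.le, ?_⟩, hp, a, b⟩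
      have h2 : (x : ℝ) ^ (1 / 80 : ℝ) ≤ (x : ℝ) ^ (1 : ℝ) :=
        Real.rpow_le_rpow_of_exponent_le (by linarith) (by norm_num)
      rw [Real.rpow_one] at h2
      exact_mod_cast b.trans h2
    · rintro ⟨_, hp, a, b⟩
      exact ⟨⟨a, b⟩, hp⟩
  rw [hQ] at h1
  exact h1

theorem many_primes2 {D c₀ : ℕ} (hD : 0 < D) (hc₀ : Nat.Coprime c₀ D) (B : ℕ) (τ : ℝ) (hτ : 0 < τ) :
    ∃ x₀ : ℕ, ∀ x : ℕ, x₀ ≤ x → (x : ℝ) ^ (1 - τ) ≤ #(Rset2 D c₀ B x) := by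
  classical
  set τ' : ℝ := min (τ / 2) (1 / 4) with hτ'
  have hτ0 : 0 < τ' := lt_min (by linarith) (by norm_num)
  have hτ1 : τ' ≤ 1 / 4 := min_le_right _ _
  have hτ2 : τ' ≤ τ / 2 := min_le_left _ _
  obtain ⟨g, hg, hne, hg1, hg0⟩ := exists_wt' hτ0 (by linarith)
  obtain ⟨c, hc, x₁, hsum⟩ := manySum2 hD hc₀ g hg hne
  set C := Pool.Agent.Helper44.ppC with hC
  have hC0 : 0 ≤ C := Pool.Agent.Helper44.ppC_nonneg
  -- large `x`
  have e1 : ∀ᶠ x : ℕ in Filter.atTop, 324 * C ≤ c * Real.log x :=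
    ((Real.tendsto_log_atTop.comp tendsto_natCast_atTop_atTop).const_mul_atTop hc).eventually_ge_atTop _
  have e2 : ∀ᶠ x : ℕ in Filter.atTop, 324 / c ≤ (x : ℝ) ^ (τ / 2) :=
    ((tendsto_rpow_atTop (by linarith)).comp tendsto_natCast_atTop_atTop).eventually_ge_atTop _
  have e3 : ∀ᶠ x : ℕ in Filter.atTop, (B : ℝ) ≤ (x : ℝ) ^ (1 - τ') :=
    ((tendsto_rpow_atTop (by linarith)).comp tendsto_natCast_atTop_atTop).eventually_ge_atTop _
  obtain ⟨x₂, hx₂⟩ := Filter.eventually_atTop.1 (e1.and (e2.and e3))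
  refine ⟨max 2 (max x₁ x₂), fun x hx => ?_⟩
  have hx2 : 2 ≤ x := (le_max_left _ _).trans hx
  obtain ⟨f1, f2, f3⟩ := hx₂ x (((le_max_right _ _).trans (le_max_right _ _)).trans hx)
  have hmain := hsum x (((le_max_left _ _).trans (le_max_right _ _)).trans hx)
  have hx1 : (1 : ℝ) < x := by exact_mod_cast (by omega : 1 < x)
  have hx0 : (0 : ℝ) < x := by linarith
  have hlog : 0 < Real.log x := Real.log_pos hx1
  -- the set of all `n`
  set S : Finset ℕ := (Icc 1 x).filter (fun n => n ≡ c₀ [MOD D] ∧ ∃ q ∈ Qs x, q ∣ n + 1) with hS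
  have hsw : ∑ q ∈ Qs x, ∑ n ∈ (Icc 1 x).filter (fun n => n ≡ c₀ [MOD D] ∧ q ∣ n + 1), Λ n * wt g x n ≤
      162 * ∑ n ∈ S, Λ n * wt g x n := by
    have h1 : ∀ q ∈ Qs x, ∑ n ∈ (Icc 1 x).filter (fun n => n ≡ c₀ [MOD D] ∧ q ∣ n + 1), Λ n * wt g x n ≤
        ∑ n ∈ S, if q ∣ n + 1 then Λ n * wt g x n else 0 := by
      intro q hq
      rw [← Finset.sum_filter]
      apply Finset.sum_le_sum_of_subset_of_nonneg
      · intro n hn
        rw [mem_filter] at hn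
        rw [mem_filter, hS, mem_filter]
        have hq' : q ∣ n + 1 := hn.2.2
        exact ⟨⟨hn.1, hn.2.1, q, hq, hq'⟩, hq'⟩
      · intro n _ _
        exact mul_nonneg ArithmeticFunction.vonMangoldt_nonneg (wt_nonneg hg _ _)
    refine (Finset.sum_le_sum h1).trans ?_
    rw [Finset.sum_comm, Finset.mul_sum]
    apply Finset.sum_le_sum
    intro n hn
    rw [← Finset.sum_filter, Finset.sum_const, nsmul_eq_mul]
    apply mul_le_mul_of_nonneg_right _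
      (mul_nonneg ArithmeticFunction.vonMangoldt_nonneg (wt_nonneg hg _ _))
    have hnx : n ≤ x := (mem_Icc.1 (mem_filter.1 hn).1).2
    exact_mod_cast card_count hx2 hnx
  have hsplit := Finset.sum_filter_add_sum_filter_not S Nat.Prime (fun n => Λ n * wt g x n)
  have hnp : ∑ n ∈ S.filter (fun n => ¬ n.Prime), Λ n * wt g x n ≤ C :=
    nonprime_le hg hg1 x x _ ((filter_subset _ _).trans (filter_subset _ _))
      fun n hn => (mem_filter.1 hn).2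
  have hpr : ∑ n ∈ S.filter Nat.Prime, Λ n * wt g x n ≤
      #(Rset2 D c₀ B x) * (Real.log x * (x : ℝ) ^ (-(1 - τ'))) := by
    have h1 : ∑ n ∈ (S.filter Nat.Prime) ∩ Rset2 D c₀ B x, Λ n * wt g x n =
        ∑ n ∈ S.filter Nat.Prime, Λ n * wt g x n := by
      apply Finset.sum_subset inter_subset_left
      intro n hn hnn
      have hn1 := mem_filter.1 hn
      have hn2 := mem_filter.1 hn1.1
      have hn3 := mem_Icc.1 hn2.1
      have hnB : ¬ B < n := by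
        intro hB
        apply hnn
        rw [mem_inter]
        refine ⟨hn, ?_⟩
        obtain ⟨hD, q, hq, hqn⟩ := hn2.2
        rw [Qs, mem_filter] at hq
        rw [Rset2, mem_filter]
        exact ⟨hn2.1, hn1.2, hD, hB, q, hq.2.1, hq.2.2.1, hq.2.2.2, hqn⟩
      have hle : (n : ℝ) ≤ (x : ℝ) ^ (1 - τ') := by
        refine le_trans ?_ f3
        exact_mod_cast not_lt.1 hnB
      rw [(wt_le hg hg1 hg0 hx2 hn3.1).2 hle, mul_zero]
    rw [← h1]
    have h2 : ∀ n ∈ (S.filter Nat.Prime) ∩ Rset2 D c₀ B x, Λ n * wt g x n ≤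
        Real.log x * (x : ℝ) ^ (-(1 - τ')) := by
      intro n hn
      have hn1 := mem_filter.1 (mem_inter.1 hn).1
      have hn2 := mem_filter.1 hn1.1
      have hn3 := mem_Icc.1 hn2.1
      rw [ArithmeticFunction.vonMangoldt_apply_prime hn1.2]
      have hn0 : (0 : ℝ) < n := by exact_mod_cast hn3.1
      exact mul_le_mul (Real.log_le_log hn0 (by exact_mod_cast hn3.2))
        (wt_le hg hg1 hg0 hx2 hn3.1).1 (wt_nonneg hg _ _) hlog.le
    have h3 := Finset.sum_le_card_nsmul _ _ _ h2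
    rw [nsmul_eq_mul] at h3
    refine h3.trans ?_
    apply mul_le_mul_of_nonneg_right
    · exact_mod_cast Finset.card_le_card inter_subset_right
    · exact mul_nonneg hlog.le (Real.rpow_nonneg hx0.le _)
  have hfin : c * Real.log x ≤ 324 * (#(Rset2 D c₀ B x) * (Real.log x * (x : ℝ) ^ (-(1 - τ')))) := by
    linarith
  have h1 : c ≤ 324 * (#(Rset2 D c₀ B x) * (x : ℝ) ^ (-(1 - τ'))) := by
    have : c * Real.log x ≤ (324 * (#(Rset2 D c₀ B x) * (x : ℝ) ^ (-(1 - τ')))) * Real.log x := by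
      linarith
    exact le_of_mul_le_mul_right this hlog
  have hp : 0 < (x : ℝ) ^ (1 - τ') := Real.rpow_pos_of_pos hx0 _
  have h2 : c * (x : ℝ) ^ (1 - τ') ≤ 324 * #(Rset2 D c₀ B x) := by
    have h3 : (x : ℝ) ^ (-(1 - τ')) * (x : ℝ) ^ (1 - τ') = 1 := by
      rw [← Real.rpow_add hx0, neg_add_cancel, Real.rpow_zero]
    calc c * (x : ℝ) ^ (1 - τ') ≤ (324 * (#(Rset2 D c₀ B x) * (x : ℝ) ^ (-(1 - τ')))) * (x : ℝ) ^ (1 - τ') :=
          mul_le_mul_of_nonneg_right h1 hp.le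
      _ = 324 * #(Rset2 D c₀ B x) * ((x : ℝ) ^ (-(1 - τ')) * (x : ℝ) ^ (1 - τ')) := by ring
      _ = 324 * #(Rset2 D c₀ B x) := by rw [h3, mul_one]
  have h4 : (x : ℝ) ^ (1 - τ) * (x : ℝ) ^ (τ / 2) ≤ (x : ℝ) ^ (1 - τ') := by
    rw [← Real.rpow_add hx0]
    exact Real.rpow_le_rpow_of_exponent_le hx1.le (by linarith)
  have h5 : 0 ≤ (x : ℝ) ^ (1 - τ) := Real.rpow_nonneg hx0.le _
  rw [div_le_iff₀ hc] at f2
  nlinarith [mul_le_mul_of_nonneg_left f2 h5, mul_le_mul_of_nonneg_left h4 hc.le]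

end Pool.Agent.Helper14.PG
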