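import Mathlib

/-!
# PG-Val: a polynomial of degree `m` dividing `r - 1` misses many values modulo `r`

PROOF.  `f = X ^ m + ∑ h j X ^ j`, `K = (r - 1) / m`, `N v = #{Z | f Z = v} ≤ m < r`, `W = {v | N v ≠ 1}`.  `W ≠ ∅`: otherwise `f`
permutes `ZMod r`, so `∑ Z, f Z ^ K = ∑ v, v ^ K = 0` (`K < r - 1`), but `f ^ K` is monic of degree `r - 1`, and so
`∑ Z, f Z ^ K = -1` (`FiniteField.sum_pow_lt_card_sub_one`, `FiniteField.sum_pow_units` or Fermat for the top term).  `#W > K`:
otherwise take `w₀ ∈ W`, `P = ∏ w ∈ W \ {w₀}, (X - w)`, of degree `< K`; `∑ Z, P (f Z) = 0` as `P ∘ f` has degree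
`< m K = r - 1`, `∑ v, P v = 0`; so `0 = ∑ v, (N v - 1) P v = (N w₀ - 1) P w₀`, and `N w₀ = 1` modulo `r`, a contradiction.
`∑ v, (N v - 1) = 0`: so `#{N = 0} = ∑_{N ≥ 2} (N - 1) ≥ #{N ≥ 2}` and `#{N = 0} ≥ #W / 2 ≥ (r - 1) / (2 m) ≥ r / (4 m)`.  `T` is
contained in the set of `t` with `N (-t) ≠ 0`.
-/

set_option autoImplicit false

namespace Pool.Agent.Helper14.PG

open Finset Polynomial

private theorem val_sum_lt {r : ℕ} [Fact r.Prime] (P : (ZMod r)[X]) (hP : P.natDegree < r - 1) :
    ∑ x : ZMod r, P.eval x = 0 := by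
  have h1 : ∀ x : ZMod r, P.eval x = ∑ i ∈ range (r - 1), P.coeff i * x ^ i := fun x =>
    Polynomial.eval_eq_sum_range' hP x
  rw [Finset.sum_congr rfl fun x _ => h1 x, Finset.sum_comm]
  refine Finset.sum_eq_zero fun i hi => ?_
  rw [← Finset.mul_sum, FiniteField.sum_pow_lt_card_sub_one, mul_zero]
  rw [ZMod.card]
  exact mem_range.1 hi

private theorem val_sum_eq {r : ℕ} [Fact r.Prime] (P : (ZMod r)[X]) (hP : P.Monic)
    (hd : P.natDegree = r - 1) : ∑ x : ZMod r, P.eval x = -1 := by
  have hr : r.Prime := Fact.out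
  have hr2 := hr.two_le
  have h1 : ∀ x : ZMod r, P.eval x = ∑ i ∈ range (r - 1 + 1), P.coeff i * x ^ i := fun x =>
    Polynomial.eval_eq_sum_range' (by omega) x
  rw [Finset.sum_congr rfl fun x _ => h1 x, Finset.sum_comm, Finset.sum_range_succ]
  have h2 : ∑ i ∈ range (r - 1), ∑ x : ZMod r, P.coeff i * x ^ i = 0 := by
    refine Finset.sum_eq_zero fun i hi => ?_
    rw [← Finset.mul_sum, FiniteField.sum_pow_lt_card_sub_one, mul_zero]
    rw [ZMod.card]
    exact mem_range.1 hi
  have h3 : P.coeff (r - 1) = 1 := by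
    rw [← hd]
    exact hP
  have h4 : ∀ x : ZMod r, x ^ (r - 1) = 1 - if x = 0 then 1 else 0 := by
    intro x
    by_cases hx : x = 0
    · rw [if_pos hx, hx, zero_pow (by omega), sub_self]
    · rw [if_neg hx, ZMod.pow_card_sub_one_eq_one hx, sub_zero]
  rw [h2, h3, zero_add]
  simp only [one_mul, h4]
  rw [Finset.sum_sub_distrib, Finset.sum_const, Finset.card_univ, ZMod.card,
    Finset.sum_ite_eq' univ (0 : ZMod r) (fun _ => (1 : ZMod r)), if_pos (mem_univ _)]
  simp

theorem value_set {r m : ℕ} [Fact r.Prime] (hm : 2 ≤ m) (hr : 3 ≤ r) (hdvd : m ∣ r - 1)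
    (h : Fin m → ZMod r) (T : Finset (ZMod r))
    (hT : ∀ t ∈ T, ∃ Z : ZMod r, Z ^ m + ∑ j, h j * Z ^ (j : ℕ) + t = 0) :
    (#T : ℝ) ≤ (1 - 1 / (4 * m)) * r := by
  classical
  have hrp : r.Prime := Fact.out
  obtain ⟨K, hK⟩ := hdvd
  have hK1 : 1 ≤ K := by
    rcases Nat.eq_zero_or_pos K with h0 | h0
    · rw [h0, mul_zero] at hK
      omega
    · exact h0
  have hKr : K < r - 1 := by
    rw [hK]
    nlinarith
  have hmr : m < r := by
    have : m * 1 ≤ m * K := Nat.mul_le_mul_left _ hK1
    omega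
  set f : (ZMod r)[X] := X ^ m + ∑ j : Fin m, C (h j) * X ^ (j : ℕ) with hf
  have hdeg : (∑ j : Fin m, C (h j) * X ^ (j : ℕ)).degree < (m : WithBot ℕ) :=
    Polynomial.degree_sum_fin_lt h
  have hmonic : f.Monic := Polynomial.monic_X_pow_add hdeg
  have hnd : f.natDegree = m :=  by
    refine Polynomial.natDegree_eq_of_degree_eq_some ?_
    rw [hf, Polynomial.degree_add_eq_left_of_degree_lt (by rwa [Polynomial.degree_X_pow]),
      Polynomial.degree_X_pow]
  have heval : ∀ Z : ZMod r, f.eval Z = Z ^ m + ∑ j, h j * Z ^ (j : ℕ) := by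
    intro Z
    rw [hf, eval_add, eval_pow, eval_X, eval_finsetSum]
    simp only [eval_mul, eval_C, eval_pow, eval_X]
  -- fibres
  let N : ZMod r → ℕ := fun v => #(univ.filter fun x : ZMod r => f.eval x = v)
  have hNle : ∀ v, N v ≤ m := by
    intro v
    have h0 : f - C v ≠ 0 := by
      intro h0
      have h1 := congrArg natDegree h0
      rw [natDegree_sub_C, hnd, natDegree_zero] at h1
      omega
    have h1 : (univ.filter fun x : ZMod r => f.eval x = v) ⊆ (f - C v).roots.toFinset := by
      intro x hx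
      rw [Multiset.mem_toFinset, mem_roots h0, IsRoot.def, eval_sub, eval_C,
        (mem_filter.1 hx).2, sub_self]
    calc N v ≤ #(f - C v).roots.toFinset := Finset.card_le_card h1
      _ ≤ (f - C v).roots.card := Multiset.toFinset_card_le _
      _ ≤ (f - C v).natDegree := card_roots' _
      _ = m := by rw [natDegree_sub_C, hnd]
  have hfib : ∀ P : (ZMod r)[X], ∑ x : ZMod r, (P.comp f).eval x =
      ∑ v : ZMod r, (N v : ZMod r) * P.eval v := by
    intro P
    have h1 : ∀ v : ZMod r, (N v : ZMod r) * P.eval v =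
        ∑ x ∈ univ with f.eval x = v, P.eval (f.eval x) := by
      intro v
      have h2 : ∀ x ∈ univ.filter (fun x : ZMod r => f.eval x = v),
          P.eval (f.eval x) = P.eval v := fun x hx => by rw [(mem_filter.1 hx).2]
      rw [Finset.sum_congr rfl h2, Finset.sum_const, nsmul_eq_mul]
    rw [Finset.sum_congr rfl fun v _ => h1 v, Finset.sum_fiberwise]
    exact Finset.sum_congr rfl fun x _ => eval_comp
  have hdiff : ∀ P : (ZMod r)[X], ∑ x : ZMod r, (P.comp f).eval x - ∑ v : ZMod r, P.eval v =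
      ∑ v : ZMod r, ((N v : ZMod r) - 1) * P.eval v := by
    intro P
    rw [hfib, ← Finset.sum_sub_distrib]
    exact Finset.sum_congr rfl fun v _ => by ring
  have hsumN : ∑ v : ZMod r, N v = r := by
    have h1 := Finset.card_eq_sum_card_fiberwise (s := (univ : Finset (ZMod r)))
      (t := (univ : Finset (ZMod r))) (f := fun x => f.eval x) (fun x _ => mem_coe.2 (mem_univ _))
    rw [Finset.card_univ, ZMod.card] at h1
    exact h1.symm
  let W : Finset (ZMod r) := univ.filter fun v => N v ≠ 1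
  have hW : K < #W := by
    by_contra hcon
    rw [not_lt] at hcon
    rcases W.eq_empty_or_nonempty with hWe | ⟨w0, hw0⟩
    · have h1 : ∀ v, N v = 1 := by
        intro v
        by_contra hv
        have : v ∈ W := mem_filter.2 ⟨mem_univ _, hv⟩
        rw [hWe] at this
        exact absurd this (notMem_empty _)
      have h2 := hdiff (X ^ K)
      have h3 : ∑ v : ZMod r, ((N v : ZMod r) - 1) * (X ^ K : (ZMod r)[X]).eval v = 0 := by
        refine Finset.sum_eq_zero fun v _ => ?_
        rw [h1 v, Nat.cast_one, sub_self, zero_mul]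
      have h4 : ∑ v : ZMod r, (X ^ K : (ZMod r)[X]).eval v = 0 :=
        val_sum_lt _ (by rw [natDegree_X_pow]; exact hKr)
      have h5 : ∑ x : ZMod r, ((X ^ K : (ZMod r)[X]).comp f).eval x = -1 := by
        rw [pow_comp, X_comp]
        refine val_sum_eq _ (hmonic.pow K) ?_
        rw [hmonic.natDegree_pow, hnd, hK, mul_comm]
      rw [h3, h4, h5, sub_zero, neg_eq_zero] at h2
      exact one_ne_zero h2
    · let P : (ZMod r)[X] := ∏ w ∈ W.erase w0, (X - C w)
      have hPd : P.natDegree < K := by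
        rw [natDegree_prod_of_monic _ _ (fun w _ => monic_X_sub_C w)]
        simp only [natDegree_X_sub_C, sum_const, smul_eq_mul, mul_one]
        have h1 := Finset.card_erase_lt_of_mem hw0
        omega
      have h1 := hdiff P
      have h2 : ∑ v : ZMod r, P.eval v = 0 := val_sum_lt _ (hPd.trans hKr)
      have h3 : ∑ x : ZMod r, (P.comp f).eval x = 0 := by
        refine val_sum_lt _ ?_
        rw [natDegree_comp, hnd, hK, mul_comm]
        exact Nat.mul_lt_mul_of_pos_left hPd (by omega)
      have h4 : ∑ v : ZMod r, ((N v : ZMod r) - 1) * P.eval v =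
          ((N w0 : ZMod r) - 1) * P.eval w0 := by
        refine Finset.sum_eq_single w0 (fun v _ hv => ?_) (fun hn => absurd (mem_univ _) hn)
        by_cases hvW : v ∈ W
        · have : P.eval v = 0 := by
            rw [eval_prod]
            refine Finset.prod_eq_zero (mem_erase.2 ⟨hv, hvW⟩) ?_
            rw [eval_sub, eval_X, eval_C, sub_self]
          rw [this, mul_zero]
        · have : N v = 1 := by
            by_contra hc
            exact hvW (mem_filter.2 ⟨mem_univ _, hc⟩)
          rw [this, Nat.cast_one, sub_self, zero_mul]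
      rw [h2, h3, sub_zero, h4] at h1
      have h5 : P.eval w0 ≠ 0 := by
        rw [eval_prod, Finset.prod_ne_zero_iff]
        intro w hw
        rw [eval_sub, eval_X, eval_C]
        exact sub_ne_zero.2 (Ne.symm (mem_erase.1 hw).1)
      have h6 : (N w0 : ZMod r) = ((1 : ℕ) : ZMod r) := by
        rw [Nat.cast_one]
        exact sub_eq_zero.1 ((mul_eq_zero.1 h1.symm).resolve_right h5)
      have h7 : N w0 = 1 := by
        rw [ZMod.natCast_eq_natCast_iff', Nat.mod_eq_of_lt (lt_of_le_of_lt (hNle w0) hmr),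
          Nat.mod_eq_of_lt hrp.one_lt] at h6
        exact h6
      exact (mem_filter.1 hw0).2 h7
  let Z0 : Finset (ZMod r) := univ.filter fun v => N v = 0
  have hZ0 : #W ≤ 2 * #Z0 := by
    have h1 : ∀ v : ZMod r, 1 + (if N v ≠ 1 then 1 else 0) ≤ N v + 2 * (if N v = 0 then 1 else 0) := by
      intro v
      split_ifs <;> omega
    have h2 := Finset.sum_le_sum fun v (_ : v ∈ (univ : Finset (ZMod r))) => h1 v
    rw [Finset.sum_add_distrib, Finset.sum_add_distrib, hsumN, ← Finset.mul_sum,
      ← Finset.card_filter, ← Finset.card_filter, Finset.sum_const, Finset.card_univ,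
      ZMod.card, smul_eq_mul, mul_one] at h2
    have h3 : #W = #(univ.filter fun v => N v ≠ 1) := rfl
    have h4 : #Z0 = #(univ.filter fun v => N v = 0) := rfl
    omega
  have hTZ : #T + #Z0 ≤ r := by
    have h1 : #T = #(T.image fun t => -t) := (Finset.card_image_of_injective _ neg_injective).symm
    have h2 : Disjoint (T.image fun t => -t) Z0 := by
      rw [Finset.disjoint_left]
      intro v hv hv0
      obtain ⟨t, ht, rfl⟩ := mem_image.1 hv
      obtain ⟨Z, hZ⟩ := hT t ht
      have h3 : N (-t) = 0 := (mem_filter.1 hv0).2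
      rw [Finset.card_eq_zero, Finset.filter_eq_empty_iff] at h3
      refine h3 (mem_univ Z) ?_
      rw [heval]
      exact eq_neg_of_add_eq_zero_left hZ
    rw [h1, ← Finset.card_union_of_disjoint h2]
    exact (Finset.card_le_univ _).trans (le_of_eq (ZMod.card r))
  have hmR : (0 : ℝ) < m := by
    have : 0 < m := by omega
    exact_mod_cast this
  have h1 : (#T : ℝ) + #Z0 ≤ r := by exact_mod_cast hTZ
  have h2 : (K : ℝ) + 1 ≤ 2 * #Z0 := by
    have : K + 1 ≤ 2 * #Z0 := by omega
    exact_mod_cast this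
  have h3 : (r : ℝ) = m * K + 1 := by
    have : r = m * K + 1 := by omega
    exact_mod_cast this
  have h4 : (r : ℝ) / (4 * m) ≤ #Z0 := by
    rw [div_le_iff₀ (by positivity)]
    have h5 : (1 : ℝ) ≤ m := by
      have : 1 ≤ m := by omega
      exact_mod_cast this
    have h6 : (0 : ℝ) ≤ K := Nat.cast_nonneg _
    nlinarith
  have h5 : (1 - 1 / (4 * (m : ℝ))) * r = r - r / (4 * m) := by
    field_simp
  rw [h5]
  linarith

end Pool.Agent.Helper14.PG
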