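import Pool.Agent.Helper14.PF.Fam2
import Pool.Agent.Helper14.PG.Classes
import Pool.Agent.Helper14.PG.Val

/-!
# PG-Fam: polynomial families and pencils of covers
-/

open AlgebraicGeometry CategoryTheory

set_option autoImplicit false

namespace Pool.Agent.Helper14.PG

open WeierstrassCurve Finset Pool.Agent.Helper11.Cov Pool.Agent.Helper14.PS Pool.Agent.Helper14.PF

/-- The count modulo `r`. -/
theorem count_gen7 {m k d m' : ℕ} (hm : 2 ≤ m) (hk : k = min (m - 1) 2 ∨ (k = 1 ∧ m' = m))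
    (hd : Odd d) (hmd : m = 2 ∨ d = 1) : ∃ (θ : ℝ) (r₀ : ℕ), 0 ≤ θ ∧ θ < 1 ∧
    ∀ (r : ℕ) [Fact r.Prime], r₀ ≤ r → m' ∣ r - 1 →
    ∀ (u : Fin k → ZMod r) (_ : ∀ i, u i ≠ 0) (h : Fin m → ZMod r) (q : Fin k → Fin d → ZMod r)
      (v : Fin k → ZMod r) (B : Finset (Fin k → ZMod r)),
      (∀ τ ∈ B, ∃ Z, Z ^ m + ∑ j, h j * Z ^ (j : ℕ) +
        ∑ i, (u i * (v i + τ i) ^ d + ∑ l, q i l * (v i + τ i) ^ (l : ℕ)) * Z ^ (i : ℕ) = 0) →
      (#B : ℝ) ≤ θ * (r : ℝ) ^ k := by
  classical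
  by_cases hk1 : k = min (m - 1) 2
  · obtain ⟨θ, r₀, h0, h1, h2⟩ := count_gen hm hk1 hd hmd
    exact ⟨θ, r₀, h0, h1, fun r _ hr _ => h2 r hr⟩
  · obtain ⟨rfl, rfl⟩ := hk.resolve_left hk1
    have hm2 : m' ≠ 2 := by
      rintro rfl
      exact hk1 rfl
    obtain rfl : d = 1 := hmd.resolve_left hm2
    have hm' : (2 : ℝ) ≤ m' := by exact_mod_cast hm
    refine ⟨1 - 1 / (4 * m'), 3, ?_, ?_, fun r _ h3 hdvd u hu h q v B hB => ?_⟩
    · have : 1 / (4 * (m' : ℝ)) < 1 := by rw [div_lt_one (by positivity)]; linarith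
      linarith
    · have : 0 < 1 / (4 * (m' : ℝ)) := by positivity
      linarith
    have h4 := value_set hm h3 hdvd h (B.image fun τ => u 0 * (v 0 + τ 0) + q 0 0) (by
      intro t ht
      obtain ⟨τ, hτ, rfl⟩ := Finset.mem_image.mp ht
      obtain ⟨Z, hZ⟩ := hB τ hτ
      refine ⟨Z, ?_⟩
      rw [Fin.sum_univ_one, Fin.sum_univ_one] at hZ
      simp only [Fin.val_zero, pow_zero, pow_one, mul_one] at hZ
      exact hZ)
    rw [Finset.card_image_of_injective _ (by
      intro τ τ' htt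
      simp only at htt
      funext i
      rw [Subsingleton.elim i 0]
      exact add_left_cancel (mul_left_cancel₀ (hu 0) (add_right_cancel htt)))] at h4
    rw [pow_one]
    exact h4

/-- **Power saving for polynomial families**, in every box of side `N ≥ N₀`, uniformly. -/
theorem famC_power7 {n : ℕ} {a b : Fin n → ℤ} {m' : ℕ} (hK : Key7 m' a b) {m k d : ℕ} (hm : 2 ≤ m)
    (hk : k = min (m - 1) 2 ∨ (k = 1 ∧ m' = m)) (hd : Odd d) (hmd : m = 2 ∨ d = 1) : ∃ N₀ : ℕ, ∀ N : ℕ, N₀ ≤ N →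
      ∀ e : ℕ, 1 ≤ e → e ≤ N → ∀ (c : Fin k → ℤ) (_ : ∀ i, ∀ r : ℕ, r.Prime → (r : ℤ) ∣ c i → r ∣ e)
        (h : Fin m → MvPolynomial (Fin n × Fin 3) ℤ)
        (q : Fin k → Fin d → MvPolynomial (Fin n × Fin 3) ℤ)
        (g : Fin k → MvPolynomial (Fin n × Fin 3) ℤ)
        (v : Fin k → ℤ), (Nat.card {t : Fin k → ℤ // (∃ P z, OnFamC a b c h q g t P z) ∧
          ∀ i, v i ≤ t i ∧ t i < v i + N} : ℝ) ≤ (N : ℝ) ^ ((k : ℝ) - 1 / 2000) := by
  classical
  obtain ⟨θ, r₀, hθ0, hθ1, hr₀⟩ := count_gen7 hm hk hd hmd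
  obtain ⟨N₀, hN₀⟩ := family_bound7 hK (k := k) (by omega) hθ0 hθ1 r₀
  refine ⟨N₀, fun N hN e he heN c hce h q g v => ?_⟩
  choose Ac Bc Dc hrep using fun (i : Fin n) (Q : (E (a i) (b i)).Point) => exists_irep Q
  -- the reductions of the functions
  let fP : (∀ i, (E (a i) (b i)).Point) → ∀ l : ℕ, [Fact l.Prime] → Fin n × Fin 3 → ZMod l :=
    fun P l _ p =>
      cooR (Ac p.1 (P p.1) : ZMod l) (Bc p.1 (P p.1)) (Dc p.1 (P p.1)) p.2
  let Bd : (∀ i, (E (a i) (b i)).Point) → ∀ r : ℕ, Finset (Fin k → ZMod r) := fun P r =>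
    if hr : r.Prime then
      haveI : Fact r.Prime := ⟨hr⟩
      ({τ | ∃ Z, Z ^ m + ∑ j, MvPolynomial.aeval (fP P r) (h j) * Z ^ (j : ℕ) +
        ∑ i, (((c i : ℤ) : ZMod r) * (1 + (MvPolynomial.aeval (fP P r) (g i)) ^ 2) *
          (((v i : ℤ) : ZMod r) + τ i) ^ d +
          ∑ l, MvPolynomial.aeval (fP P r) (q i l) * (((v i : ℤ) : ZMod r) + τ i) ^ (l : ℕ)) *
            Z ^ (i : ℕ) = 0} : Finset (Fin k → ZMod r))
    else ∅
  let On : (Fin k → ℤ) → (∀ i, (E (a i) (b i)).Point) → Prop := fun t P =>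
    ∃ z, OnFamC a b c h q g (fun i => v i + t i) P z
  have key := hN₀ N hN e he heN On Bd ?_ ?_ ?_
  · have h2 : Nat.card {t : Fin k → ℤ // (∃ P z, OnFamC a b c h q g t P z) ∧
        ∀ i, v i ≤ t i ∧ t i < v i + N} ≤ #{t ∈ Bx k N | ∃ P, On t P} := by
      have h3 := Nat.card_le_card_of_injective
        (fun t : {t : Fin k → ℤ // (∃ P z, OnFamC a b c h q g t P z) ∧
            ∀ i, v i ≤ t i ∧ t i < v i + N} =>
          (⟨fun i => t.1 i - v i, by
            rw [Finset.mem_filter, mem_Bx]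
            refine ⟨fun i => ?_, ?_⟩
            · have := t.2.2 i
              omega
            · obtain ⟨P, z, hz⟩ := t.2.1
              refine ⟨P, z, ?_⟩
              have e1 : (fun i => v i + (t.1 i - v i)) = t.1 := by
                funext i
                ring
              rw [e1]
              exact hz⟩ : ↥({t ∈ Bx k N | ∃ P, On t P})))
        (fun t t' htt => by
          apply Subtype.ext
          funext i
          have h4 := congrFun (congrArg Subtype.val htt) i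
          simp only at h4
          omega)
      refine h3.trans (le_of_eq ?_)
      rw [Nat.card_eq_fintype_card, Fintype.card_coe]
    exact le_trans (by exact_mod_cast h2) key
  · -- the number of residues
    intro P r hr hrr hnd h4
    have hF : Fact r.Prime := ⟨hr⟩
    simp only [Bd, dif_pos hr]
    exact hr₀ r hrr h4.2 (fun i => ((c i : ℤ) : ZMod r) * (1 + (MvPolynomial.aeval (fP P r) (g i)) ^ 2))
      (fun i => mul_ne_zero (fun h0 => hnd (hce i r hr
        ((ZMod.intCast_zmod_eq_zero_iff_dvd (c i) r).mp h0))) (one_add_sq_ne h4.1 _))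
      (fun j => MvPolynomial.aeval (fP P r) (h j))
      (fun i l => MvPolynomial.aeval (fP P r) (q i l)) (fun i => ((v i : ℤ) : ZMod r)) _
      (fun τ hτ => (Finset.mem_filter.mp hτ).2)
  · -- reduction
    rintro t P r hr hrr hnd h4 ⟨z, hc⟩
    have hF : Fact r.Prime := ⟨hr⟩
    simp only [Bd, dif_pos hr]
    rw [Finset.mem_filter]
    refine ⟨Finset.mem_univ _, ?_⟩
    rw [onFamC_iff (by omega)] at hc
    unfold OnPencil at hc
    have e1 : (fun p : Fin n × Fin 3 => coo p.2 (P p.1)) = fun p : Fin n × Fin 3 =>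
        cooR (Ac p.1 (P p.1) : ℚ) (Bc p.1 (P p.1)) (Dc p.1 (P p.1)) p.2 := by
      funext p
      exact coo_irep (hrep p.1 (P p.1)) p.2
    rw [e1] at hc
    obtain ⟨Z, hZ⟩ := reduce_eq (l := r) h4.1 (A := fun i => Ac i (P i)) (B := fun i => Bc i (P i))
      (D := fun i => Dc i (P i)) (fun i => (hrep i (P i)).1) (by omega) _ _ hc
    refine ⟨Z, ?_⟩
    rw [sum_absW (by omega), Finset.univ_eq_empty (α := Fin 0), Finset.sum_empty, add_zero,
      ← add_assoc] at hZ
    simp only [aeval_wtC] at hZ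
    rw [← hZ]
    push_cast
    rfl
  · -- classes
    intro P P' r hF hrr hnd h4 hPP'
    have hr : r.Prime := hF.out
    simp only [Bd, dif_pos hr]
    have e2 : fP P' r = fP P r := by
      funext p
      obtain ⟨u, hu, hA, hB, hD⟩ := (hrep p.1 (P p.1)).cong (hrep p.1 (P' p.1)) (hPP' p.1)
      simp only [fP]
      rw [hA, hB, hD, cooR_scale hu]
    rw [e2]

end Pool.Agent.Helper14.PG
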