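import Pool.Agent.Helper14.PF.FamQ
import Pool.Agent.Helper14.PG.Fam

/-!
# PG-FamQ: polynomial families and pencils of covers, rational parameters
-/

open AlgebraicGeometry CategoryTheory

set_option autoImplicit false

namespace Pool.Agent.Helper14.PG

open WeierstrassCurve Finset Pool.Agent.Helper11.Cov Pool.Agent.Helper14.PS Pool.Agent.Helper14.PF

/-- The exponent used in clearing denominators. -/
theorem exp_ok7 {m k d : ℕ} (hkm : k < m) (hd : Odd d) (hmd : m = 2 ∨ d = 1)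
    (i : Fin k) : d ≤ (d + 1) / 2 * (m - i) := by
  have hi := i.2
  rcases hmd with rfl | rfl
  · have h0 : (i : ℕ) = 0 := by omega
    rw [h0]
    obtain ⟨u, rfl⟩ := hd
    omega
  · have h0 : 1 ≤ m - (i : ℕ) := by omega
    omega

/-- **Power saving for polynomial families, rational parameters.** -/
theorem famQ_power7 {n : ℕ} {a b : Fin n → ℤ} {m' : ℕ} (hK : Key7 m' a b) {m k d : ℕ} (hm : 2 ≤ m)
    (hk : k = min (m - 1) 2 ∨ (k = 1 ∧ m' = m)) (hd : Odd d) (hmd : m = 2 ∨ d = 1) : ∃ N₀ : ℕ, ∀ N : ℕ, N₀ ≤ N →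
      ∀ e : ℕ, 1 ≤ e → e ≤ N → ∀ (h : Fin m → MvPolynomial (Fin n × Fin 3) ℤ)
        (q : Fin k → Fin d → MvPolynomial (Fin n × Fin 3) ℤ)
        (g : Fin k → MvPolynomial (Fin n × Fin 3) ℤ)
        (v : Fin k → ℤ), (Nat.card {A : Fin k → ℤ //
          (∃ P z, OnFamQ a b h q g (fun i => (A i : ℚ) / e) P z) ∧
          ∀ i, v i ≤ A i ∧ A i < v i + N} : ℝ) ≤ (N : ℝ) ^ ((k : ℝ) - 1 / 2000) := by
  have hkm : k < m := by omega
  obtain ⟨N₀, hN₀⟩ := famC_power7 hK hm hk hd hmd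
  refine ⟨N₀, fun N hN e he heN h q g v => ?_⟩
  have he' : (e : ℚ) ≠ 0 := by
    have : e ≠ 0 := by omega
    exact_mod_cast this
  have h1 := hN₀ N hN e he heN (cE m d e ((d + 1) / 2)) (fun i r hr hdvd => by
      unfold cE at hdvd
      have h2 := (Nat.prime_iff_prime_int.mp hr).dvd_of_dvd_pow hdvd
      exact_mod_cast h2) (hE e ((d + 1) / 2) h) (qE m e ((d + 1) / 2) q) g v
  have hiff : ∀ A : Fin k → ℤ, (∃ P z, OnFamQ a b h q g (fun i => (A i : ℚ) / e) P z) ↔
      ∃ P z, OnFamC a b (cE m d e ((d + 1) / 2)) (hE e ((d + 1) / 2) h)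
        (qE m e ((d + 1) / 2) q) g A P z := by
    intro A
    constructor
    · rintro ⟨P, z, hz⟩
      exact ⟨P, _, (onFamQ_iff (by omega) (exp_ok7 hkm hd hmd) he).mp hz⟩
    · rintro ⟨P, z, hz⟩
      refine ⟨P, z / (e : ℚ) ^ ((d + 1) / 2), ?_⟩
      rw [onFamQ_iff (s := (d + 1) / 2) (by omega) (exp_ok7 hkm hd hmd) he]
      have e1 : (e : ℚ) ^ ((d + 1) / 2) * (z / (e : ℚ) ^ ((d + 1) / 2)) = z := by
        field_simp
      rw [e1]
      exact hz
  have h3 : Nat.card {A : Fin k → ℤ // (∃ P z, OnFamQ a b h q g (fun i => (A i : ℚ) / e) P z) ∧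
      ∀ i, v i ≤ A i ∧ A i < v i + N} = Nat.card {A : Fin k → ℤ //
      (∃ P z, OnFamC a b (cE m d e ((d + 1) / 2)) (hE e ((d + 1) / 2) h)
        (qE m e ((d + 1) / 2) q) g A P z) ∧ ∀ i, v i ≤ A i ∧ A i < v i + N} :=
    Nat.card_congr (Equiv.subtypeEquivRight fun A => and_congr_left fun _ => hiff A)
  rw [h3]
  exact h1

/-- If a variety dominating the cover has dense rational points, the cover has a rational point. -/
theorem exists_onFamQ7 {n : ℕ} {a b : Fin n → ℤ} (hg : ∀ i, Good (a i) (b i)) {m k d : ℕ}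
    (hk : k < m) (hd : Odd d) (hmd : m = 2 ∨ d = 1)
    {h : Fin m → MvPolynomial (Fin n × Fin 3) ℤ}
    {q : Fin k → Fin d → MvPolynomial (Fin n × Fin 3) ℤ}
    {g : Fin k → MvPolynomial (Fin n × Fin 3) ℤ} {t : Fin k → ℚ} {V : Scheme.{0}} [IsIntegral V]
    (f : V ⟶ Spec (CommRingCat.of ℚ)) (x y : Fin n → V.functionField) (z : V.functionField)
    (hxy : ∀ i, y i ^ 2 = x i ^ 3 + (a i : V.functionField) * x i + (b i : V.functionField))
    (hz : z ^ m + ∑ j, MvPolynomial.aeval (fun p : Fin n × Fin 3 =>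
      ![1, x p.1, y p.1] p.2 / (1 + x p.1 ^ 2)) (h j) * z ^ (j : ℕ) +
      ∑ i, ((1 + (MvPolynomial.aeval (fun p : Fin n × Fin 3 =>
        ![1, x p.1, y p.1] p.2 / (1 + x p.1 ^ 2)) (g i)) ^ 2) * (t i : V.functionField) ^ d +
        ∑ l, MvPolynomial.aeval (fun p : Fin n × Fin 3 =>
          ![1, x p.1, y p.1] p.2 / (1 + x p.1 ^ 2)) (q i l) * (t i : V.functionField) ^ (l : ℕ)) *
        z ^ (i : ℕ) = 0)
    (hdense : Dense (Pool.Agent.Helper11.rationalPoints f)) : ∃ P z, OnFamQ a b h q g t P z := by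
  classical
  -- characteristic zero
  have hchar : CharZero V.functionField := by
    obtain ⟨R, _, ι, v, φ, hinj, hv⟩ := exists_specialisation_fintype f
      (α := Fin 0) (fun o => o.elim0) hdense
    apply charZero_of_inj_zero
    intro j hj
    have e1 : (j : R) = 0 := by
      apply hinj
      rw [map_natCast, map_zero]
      exact hj
    have e2 := congrArg φ e1
    rw [map_natCast, map_zero] at e2
    exact_mod_cast e2
  -- a common denominator
  set e : ℕ := ∏ i, (t i).den with he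
  have he1 : 1 ≤ e := Nat.succ_le_of_lt (Finset.prod_pos fun i _ => (t i).den_pos)
  have hA : ∀ i, ∃ A : ℤ, t i = (A : ℚ) / e := by
    intro i
    have h1 : (t i).den ∣ e := Finset.dvd_prod_of_mem (fun i => (t i).den) (Finset.mem_univ i)
    obtain ⟨w, hw⟩ := h1
    have hd0 : ((t i).den : ℚ) ≠ 0 := by exact_mod_cast (t i).den_ne_zero
    have hw0 : (w : ℚ) ≠ 0 := by
      intro h0
      have : w = 0 := by exact_mod_cast h0
      rw [this, mul_zero] at hw
      omega
    refine ⟨(t i).num * w, ?_⟩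
    rw [hw]
    push_cast
    rw [mul_div_mul_right _ _ hw0]
    exact (Rat.num_div_den (t i)).symm
  choose A hA using hA
  have ht : t = fun i => (A i : ℚ) / e := funext hA
  have he' : (e : V.functionField) ≠ 0 := by
    have : e ≠ 0 := by omega
    exact_mod_cast this
  have heQ : (e : ℚ) ≠ 0 := by
    have : e ≠ 0 := by omega
    exact_mod_cast this
  have hkm : k ≤ m := by omega
  have hcl := clear_gen (s := (d + 1) / 2) hkm (exp_ok7 hk hd hmd) he' h q g A
    (fun p : Fin n × Fin 3 => ![1, x p.1, y p.1] p.2 / (1 + x p.1 ^ 2)) z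
  have hcast : ∀ i, (t i : V.functionField) = (A i : V.functionField) / e := by
    intro i
    rw [hA i]
    push_cast
    rfl
  simp only [hcast] at hz
  rw [hz, mul_zero] at hcl
  obtain ⟨P, z', hP⟩ := exists_onPencil hg
    (h := absW (hE e ((d + 1) / 2) h) (wtC (cE m d e ((d + 1) / 2)) (qE m e ((d + 1) / 2) q) g A))
    (t := (Fin.elim0 : Fin 0 → ℤ)) f x y ((e : V.functionField) ^ ((d + 1) / 2) * z) hxy (by
      rw [sum_absW hkm, Finset.univ_eq_empty (α := Fin 0), Finset.sum_empty, add_zero,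
        ← add_assoc]
      simp only [aeval_wtC]
      exact hcl) hdense
  rw [← onFamC_iff hkm] at hP
  refine ⟨P, z' / (e : ℚ) ^ ((d + 1) / 2), ?_⟩
  rw [ht, onFamQ_iff (s := (d + 1) / 2) hkm (exp_ok7 hk hd hmd) he1]
  have e1 : (e : ℚ) ^ ((d + 1) / 2) * (z' / (e : ℚ) ^ ((d + 1) / 2)) = z' := by
    field_simp
  rw [e1]
  exact hP

end Pool.Agent.Helper14.PG
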