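import Pool.Agent.Helper43.PS.ManySum

/-!
# PG-ManySum: the lower bound for the weighted sum, in a residue class modulo `D`

`many_sum` of Helper43/PS/ManySum.lean with `D * q ∣ n + 1` replaced by `n ≡ c₀ [MOD D] ∧ q ∣ n + 1`, `c₀` prime to `D`.
PROOF.  Copy it; `cl d` is now chosen by `Classical`: if `d = D * q`, `q` prime, `q` not dividing `D`, the number with
`cl d ≡ c₀ [MOD D]`, `cl d ≡ q - 1 [MOD q]` (`Nat.chineseRemainder`), and `1` otherwise.  (All `q` of the sum are prime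
to `D` for large `x`, as `D < x ^ (1/81) < q`.)
-/

set_option autoImplicit false

open Finset Filter Topology
open scoped ArithmeticFunction.vonMangoldt

namespace Pool.Agent.Helper14.PG

open Pool.Agent.Helper18.BV

theorem exists_cl {D c₀ : ℕ} (hD : 0 < D) (hc₀ : Nat.Coprime c₀ D) : ∀ d : ℕ, ∃ a : ℕ,
    Nat.Coprime a d ∧ ∀ q : ℕ, q.Prime → ¬ q ∣ D → d = D * q →
      ∀ n : ℕ, n ≡ a [MOD d] ↔ n ≡ c₀ [MOD D] ∧ q ∣ n + 1 := by
  intro d
  by_cases h : ∃ q : ℕ, q.Prime ∧ ¬ q ∣ D ∧ d = D * q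
  · obtain ⟨q, hq, hqD, rfl⟩ := h
    have hco : Nat.Coprime D q := ((Nat.Prime.coprime_iff_not_dvd hq).2 hqD).symm
    obtain ⟨a, ha1, ha2⟩ := Nat.chineseRemainder hco c₀ (q - 1)
    have hca : Nat.Coprime a D := by
      have e1 : Nat.gcd a D = Nat.gcd c₀ D := ha1.gcd_eq
      unfold Nat.Coprime
      rw [e1]
      exact hc₀
    have hcq : Nat.Coprime a q := by
      have e1 : Nat.gcd a q = Nat.gcd (q - 1) q := ha2.gcd_eq
      unfold Nat.Coprime
      rw [e1]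
      have : Nat.Coprime (q - 1) (q - 1 + 1) := by simp
      rwa [Nat.sub_add_cancel hq.pos] at this
    refine ⟨a, Nat.Coprime.mul_right hca hcq, ?_⟩
    intro q' hq' hq'D hqq n
    have e2 : q = q' := Nat.eq_of_mul_eq_mul_left hD hqq
    subst e2
    rw [← Nat.modEq_and_modEq_iff_modEq_mul hco, ← Pool.Agent.Helper43.PS.modEq_iff hq.pos]
    constructor
    · rintro ⟨b1, b2⟩
      exact ⟨b1.trans ha1, b2.trans ha2⟩
    · rintro ⟨b1, b2⟩
      exact ⟨b1.trans ha1.symm, b2.trans ha2.symm⟩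
  · refine ⟨1, Nat.coprime_one_left d, ?_⟩
    intro q hq hqD hd
    exact absurd ⟨q, hq, hqD, hd⟩ h

theorem many_sum2 {D c₀ : ℕ} (hD : 0 < D) (hc₀ : Nat.Coprime c₀ D) {g : ℝ → ℝ} (hg : IsWt g)
    (hne : ∃ v, g v ≠ 0) :
    ∃ c₁ X0 : ℝ, 0 < c₁ ∧ 3 ≤ X0 ∧ ∀ x : ℝ, X0 ≤ x → c₁ * Real.log x ≤
      ∑ q ∈ (Ioc ⌊x ^ (1 / 81 : ℝ)⌋₊ ⌊x ^ (1 / 80 : ℝ)⌋₊).filter Nat.Prime,
        ∑ n ∈ (Icc 1 ⌊x⌋₊).filter (fun n => n ≡ c₀ [MOD D] ∧ q ∣ n + 1), Λ n * wt g x n := by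
  obtain ⟨c, C, X1, hc, hC, hX1, hM⟩ := Pool.Agent.Helper44.BV.mass g hg hne
  obtain ⟨C2, X2, hC2, hX2, hB⟩ := bv g hg 1 one_pos
  obtain ⟨C3, hC3, hMe⟩ := Pool.Agent.Helper44.mertens_interval
  set L : ℝ := Real.log (81 / 80) with hL
  have hL0 : 0 < L := Real.log_pos (by norm_num)
  have hD' : (0 : ℝ) < D := by exact_mod_cast hD
  have hev : ∀ᶠ x : ℝ in atTop, X1 ≤ x ∧ X2 ≤ x ∧ 3 ≤ x ∧ (D : ℝ) ≤ x ^ (1 / 80 : ℝ) ∧
      2 ≤ x ^ (1 / 81 : ℝ) ∧ (D : ℝ) ≤ x ^ (1 / 81 : ℝ) ∧ 162 * C3 / L ≤ Real.log x ∧ 4 * D * C2 / (c * L) ≤ Real.log x ∧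
      1 ≤ Real.log x :=
    ((eventually_ge_atTop X1)).and <| (eventually_ge_atTop X2).and <|
      (eventually_ge_atTop 3).and <|
      ((tendsto_rpow_atTop (by norm_num : (0 : ℝ) < 1 / 80)).eventually_ge_atTop _).and <|
      ((tendsto_rpow_atTop (by norm_num : (0 : ℝ) < 1 / 81)).eventually_ge_atTop _).and <|
      ((tendsto_rpow_atTop (by norm_num : (0 : ℝ) < 1 / 81)).eventually_ge_atTop _).and <|
      (Real.tendsto_log_atTop.eventually_ge_atTop _).and <|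
      (Real.tendsto_log_atTop.eventually_ge_atTop _).and
      (Real.tendsto_log_atTop.eventually_ge_atTop _)
  obtain ⟨X0, hX0⟩ := eventually_atTop.1 hev
  refine ⟨c * L / (4 * D), max 3 X0, by positivity, le_max_left _ _, ?_⟩
  intro x hx
  obtain ⟨h1, h2, h3, h4, h5, h5D, h6, h7, h8⟩ := hX0 x ((le_max_right _ _).trans hx)
  have hx0 : 0 < x := by linarith
  have hlog : 0 < Real.log x := by linarith
  set M : ℝ := ∑ n ∈ Icc 1 ⌊x⌋₊, Λ n * wt g x n with hMdef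
  have hM1 : c * Real.log x ≤ M := (hM x h1).1
  have hM0 : 0 ≤ M := le_trans (by positivity) hM1
  set Q : Finset ℕ := (Ioc ⌊x ^ (1 / 81 : ℝ)⌋₊ ⌊x ^ (1 / 80 : ℝ)⌋₊).filter Nat.Prime with hQ
  set E : ℕ → ℝ := fun q => ∑ n ∈ (Icc 1 ⌊x⌋₊).filter (fun n => n ≡ c₀ [MOD D] ∧ q ∣ n + 1),
    Λ n * wt g x n with hE
  choose cl hclc hclq using exists_cl hD hc₀
  have hBx := hB x h2 cl hclc
  rw [Real.rpow_one] at hBx
  set er : ℕ → ℝ := fun d => |∑ n ∈ (Icc 1 ⌊x⌋₊).filter (fun n => n ≡ cl d [MOD d]),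
    Λ n * wt g x n - (1 / (d.totient : ℝ)) * M| with her
  have hBx' : ∑ d ∈ Icc 1 ⌊x ^ (1 / 40 : ℝ)⌋₊, er d ≤ C2 / Real.log x := hBx
  have hQm : ∀ q ∈ Q, q.Prime ∧ 0 < q ∧ (q : ℝ) ≤ x ^ (1 / 80 : ℝ) ∧ ¬ q ∣ D := by
    intro q hq
    rw [hQ, Finset.mem_filter, Finset.mem_Ioc] at hq
    refine ⟨hq.2, hq.2.pos, (Nat.le_floor_iff (by positivity)).1 hq.1.2, ?_⟩
    intro hqD
    have e1 := Nat.le_of_dvd hD hqD
    have e2 : D ≤ ⌊x ^ (1 / 81 : ℝ)⌋₊ := Nat.le_floor h5D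
    omega
  have hEer : ∀ q ∈ Q, M / ((D * q : ℕ) : ℝ) - er (D * q) ≤ E q := by
    intro q hq
    obtain ⟨hqp, hq0, _, hqD⟩ := hQm q hq
    have hd : 0 < D * q := Nat.mul_pos hD hq0
    have e1 : (Icc 1 ⌊x⌋₊).filter (fun n => n ≡ cl (D * q) [MOD (D * q)]) =
        (Icc 1 ⌊x⌋₊).filter (fun n => n ≡ c₀ [MOD D] ∧ q ∣ n + 1) := by
      apply Finset.filter_congr
      intro n _
      exact hclq (D * q) q hqp hqD rfl n
    have e2 : er (D * q) = |E q - (1 / ((D * q).totient : ℝ)) * M| := by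
      rw [her, hE]
      simp only [e1]
    have e3 : -(er (D * q)) ≤ E q - (1 / ((D * q).totient : ℝ)) * M := by
      rw [e2]
      exact neg_abs_le _
    have e4 : M / ((D * q : ℕ) : ℝ) ≤ (1 / ((D * q).totient : ℝ)) * M := by
      rw [div_eq_mul_one_div, mul_comm]
      apply mul_le_mul_of_nonneg_right _ hM0
      apply one_div_le_one_div_of_le
      · exact_mod_cast Nat.totient_pos.2 hd
      · exact_mod_cast Nat.totient_le (D * q)
    linarith
  -- the error terms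
  have herr : ∑ q ∈ Q, er (D * q) ≤ C2 / Real.log x := by
    refine le_trans ?_ hBx'
    have hinj : Set.InjOn (fun q => D * q) (Q : Set ℕ) := by
      intro a _ b _ hab
      exact Nat.eq_of_mul_eq_mul_left hD hab
    rw [← Finset.sum_image (f := er) (g := fun q => D * q) hinj]
    apply Finset.sum_le_sum_of_subset_of_nonneg
    · intro d hd
      rw [Finset.mem_image] at hd
      obtain ⟨q, hq, rfl⟩ := hd
      obtain ⟨_, hq0, hqx, _⟩ := hQm q hq
      rw [Finset.mem_Icc]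
      refine ⟨Nat.mul_pos hD hq0, ?_⟩
      apply Nat.le_floor
      push_cast
      calc (D : ℝ) * q ≤ x ^ (1 / 80 : ℝ) * x ^ (1 / 80 : ℝ) :=
            mul_le_mul h4 hqx (by positivity) (by positivity)
        _ = x ^ (1 / 40 : ℝ) := by
            rw [← Real.rpow_add hx0]
            norm_num
    · intro d _ _
      exact abs_nonneg _
  -- Mertens
  have hMert : L / 2 ≤ ∑ q ∈ Q, (1 : ℝ) / q := by
    have m1 := hMe (x ^ (1 / 81 : ℝ)) (x ^ (1 / 80 : ℝ)) h5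
      (Real.rpow_le_rpow_of_exponent_le (by linarith) (by norm_num))
    rw [← hQ] at m1
    have m2 : Real.log (x ^ (1 / 80 : ℝ)) / Real.log (x ^ (1 / 81 : ℝ)) = 81 / 80 := by
      rw [Real.log_rpow hx0, Real.log_rpow hx0]
      field_simp
    rw [m2, ← hL] at m1
    have m3 : C3 / Real.log (x ^ (1 / 81 : ℝ)) ≤ L / 2 := by
      rw [Real.log_rpow hx0]
      rw [div_le_iff₀ (by positivity)]
      rw [div_le_iff₀ hL0] at h6
      linarith
    have m4 := (abs_le.1 m1).1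
    linarith
  have hmain : M / D * (L / 2) - C2 / Real.log x ≤ ∑ q ∈ Q, E q := by
    have s1 : ∑ q ∈ Q, (M / ((D * q : ℕ) : ℝ) - er (D * q)) ≤ ∑ q ∈ Q, E q :=
      Finset.sum_le_sum fun q hq => hEer q hq
    rw [Finset.sum_sub_distrib] at s1
    have s2 : ∑ q ∈ Q, M / ((D * q : ℕ) : ℝ) = M / D * ∑ q ∈ Q, (1 : ℝ) / q := by
      rw [Finset.mul_sum]
      apply Finset.sum_congr rfl
      intro q _
      push_cast
      rw [div_mul_div_comm, mul_one]
    rw [s2] at s1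
    have s3 : M / D * (L / 2) ≤ M / D * ∑ q ∈ Q, (1 : ℝ) / q :=
      mul_le_mul_of_nonneg_left hMert (by positivity)
    linarith
  refine le_trans ?_ hmain
  have f1 : c * Real.log x / D * (L / 2) ≤ M / D * (L / 2) := by
    apply mul_le_mul_of_nonneg_right _ (by positivity)
    exact div_le_div_of_nonneg_right hM1 hD'.le
  have f2 : C2 / Real.log x ≤ c * L / (4 * D) * Real.log x := by
    rw [div_le_iff₀ hlog]
    rw [div_le_iff₀ (by positivity)] at h7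
    have f3 : C2 ≤ c * L / (4 * D) * Real.log x := by
      rw [div_mul_eq_mul_div, le_div_iff₀ (by positivity)]
      linarith
    have f4 : c * L / (4 * D) * Real.log x * 1 ≤ c * L / (4 * D) * Real.log x * Real.log x :=
      mul_le_mul_of_nonneg_left h8 (by positivity)
    linarith
  have f5 : c * Real.log x / D * (L / 2) = 2 * (c * L / (4 * D) * Real.log x) := by
    field_simp
    ring
  linarith

end Pool.Agent.Helper14.PG
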